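import Pool.Agent.Art.SDD

/-!
# The action of the braid group on a free group, for the braid groups of the groups `G(e,e,r)`

`I` is a set with a permutation `τ` (for `G(e,e,r)`: `I = ZMod e`, `τ i = i + 1`).
`D (i, k)` (`i : I`, `k : ℕ`) are the free generators. The braid generator `k` maps
`D (i, k)` to `D (i, k + 1)` and `D (i, k + 1)` to
`D (i, k + 1) * (D (τ i, k + 1))⁻¹ * D (τ i, k)`.
-/

set_option autoImplicit false

namespace Pool.Agent.CBG

open Pool.Agent.Art Pool.Agent.HL

section

variable {I : Type} (τ : Equiv.Perm I)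

open FreeGroup

/-- the substitution of the generator `k` -/
def ue (k : ℕ) (p : I × ℕ) : FreeGroup (I × ℕ) :=
  if p.2 = k then of (p.1, k + 1)
  else if p.2 = k + 1 then of (p.1, k + 1) * (of (τ p.1, k + 1))⁻¹ * of (τ p.1, k)
  else of p

/-- the inverse substitution -/
def ve (k : ℕ) (p : I × ℕ) : FreeGroup (I × ℕ) :=
  if p.2 = k then of (p.1, k) * (of (τ.symm p.1, k))⁻¹ * of (τ.symm p.1, k + 1)
  else if p.2 = k + 1 then of (p.1, k)
  else of p

theorem exists_eAut (k : ℕ) :
    ∃ f : MulAut (FreeGroup (I × ℕ)), ∀ p, f (of p) = ue τ k p := by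
  refine exists_mulAut (ue τ k) (ve τ k) (fun p => ?_) fun p => ?_
  · obtain ⟨i, j⟩ := p
    by_cases h : j = k
    · subst h; simp [ue, ve]
    · by_cases h' : j = k + 1
      · subst h'; simp [ue, ve, mul_assoc]
      · simp [ue, ve, h, h']
  · obtain ⟨i, j⟩ := p
    by_cases h : j = k
    · subst h; simp [ue, ve, mul_assoc]
    · by_cases h' : j = k + 1
      · subst h'; simp [ue, ve]
      · simp [ue, ve, h, h']

/-- the automorphism of the generator `k` -/
noncomputable def eA (k : ℕ) : MulAut (FreeGroup (I × ℕ)) := (exists_eAut τ k).choose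

theorem eA_self (i : I) (k : ℕ) : eA τ k (of (i, k)) = of (i, k + 1) := by
  rw [eA, (exists_eAut τ k).choose_spec, ue, if_pos rfl]

theorem eA_succ (i : I) (k : ℕ) : eA τ k (of (i, k + 1)) =
    of (i, k + 1) * (of (τ i, k + 1))⁻¹ * of (τ i, k) := by
  rw [eA, (exists_eAut τ k).choose_spec, ue, if_neg (by simp), if_pos rfl]

theorem eA_ne (i : I) {j k : ℕ} (h : j ≠ k) (h' : j ≠ k + 1) :
    eA τ k (of (i, j)) = of (i, j) := by
  rw [eA, (exists_eAut τ k).choose_spec, ue, if_neg h, if_neg h']

theorem eA_comm {j k : ℕ} (h : j + 1 < k) : eA τ j * eA τ k = eA τ k * eA τ j := by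
  refine mulAut_ext fun p => ?_
  obtain ⟨i, l⟩ := p
  rw [MulAut.mul_apply, MulAut.mul_apply]
  by_cases h1 : l = j
  · subst h1
    rw [eA_ne τ i (by omega) (by omega), eA_self, eA_ne τ i (by omega) (by omega)]
  by_cases h2 : l = j + 1
  · subst h2
    rw [eA_ne τ i (by omega) (by omega), eA_succ]
    simp only [_root_.map_mul, _root_.map_inv]
    rw [eA_ne τ _ (by omega) (by omega), eA_ne τ _ (by omega) (by omega),
      eA_ne τ _ (by omega) (by omega)]
  by_cases h3 : l = k
  · subst h3
    rw [eA_self, eA_ne τ i (by omega) (by omega), eA_ne τ i (by omega) (by omega), eA_self]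
  by_cases h4 : l = k + 1
  · subst h4
    rw [eA_succ, eA_ne τ (k := j) (j := k + 1) i (by omega) (by omega), eA_succ]
    simp only [_root_.map_mul, _root_.map_inv]
    rw [eA_ne τ _ (by omega) (by omega), eA_ne τ _ (by omega) (by omega),
      eA_ne τ _ (by omega) (by omega)]
  rw [eA_ne τ i h3 h4, eA_ne τ i h1 h2, eA_ne τ i h3 h4]

theorem eA_braid (k : ℕ) :
    eA τ k * eA τ (k + 1) * eA τ k = eA τ (k + 1) * eA τ k * eA τ (k + 1) := by
  refine mulAut_ext fun p => ?_
  obtain ⟨i, l⟩ := p
  simp only [MulAut.mul_apply]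
  have e1 : ∀ i : I, eA τ (k + 1) (of (i, k)) = of (i, k) :=
    fun i => eA_ne τ i (by omega) (by omega)
  have e2 : ∀ i : I, eA τ k (of (i, k + 1 + 1)) = of (i, k + 1 + 1) :=
    fun i => eA_ne τ i (by omega) (by omega)
  by_cases h1 : l = k
  · subst h1
    rw [eA_self, eA_self, e2, e1, eA_self, eA_self]
  by_cases h2 : l = k + 1
  · subst h2
    rw [eA_succ, eA_self]
    simp only [_root_.map_mul, _root_.map_inv, e1, e2, eA_self]
    rw [eA_succ]
  by_cases h3 : l = k + 1 + 1
  · subst h3
    rw [e2, eA_succ]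
    simp only [_root_.map_mul, _root_.map_inv, e1, e2, eA_self, eA_succ]
    group
  rw [eA_ne τ i h1 h2, eA_ne τ i h2 h3, eA_ne τ i h1 h2, eA_ne τ i h2 h3]

/-- The action of the braid group. -/
noncomputable def phiE : Artin mA →* MulAut (FreeGroup (I × ℕ)) :=
  lift (eA τ) (by
    intro i j _
    rw [mA_apply]
    split_ifs with h1 h2
    · rw [h1]
    · rw [alt_three, alt_three]
      rcases h2 with rfl | rfl
      · exact eA_braid τ i
      · exact (eA_braid τ j).symm
    · rw [alt_two, alt_two]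
      rcases Nat.lt_or_ge (i + 1) j with h | h
      · exact eA_comm τ h
      · exact (eA_comm τ (by omega)).symm)

theorem phiE_gen (k : ℕ) : phiE τ (gen mA k) = eA τ k := lift_gen _ _ _

end

end Pool.Agent.CBG
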