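import Mathlib

/-!
# The braid groups of the complex reflection groups `G(e,e,r)`: the presentation of Corran and
Picantin, for an arbitrary set `I` with a permutation `τ` in the place of `ZMod e` with
`i ↦ i + 1`.
-/

set_option autoImplicit false

namespace Pool.Agent.CBG

section

variable {I : Type} {m : ℕ}

/-- The generator `t i` of the free group. -/
def fT (m : ℕ) (i : I) : FreeGroup (I ⊕ Fin m) := FreeGroup.of (Sum.inl i)

/-- The generator `s k` of the free group. -/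
def fS (I : Type) {m : ℕ} (k : Fin m) : FreeGroup (I ⊕ Fin m) := FreeGroup.of (Sum.inr k)

/-- The relators. Generators: `t i` (`i : I`) and `s 0, ..., s (m - 1)`. Relations:
`t (τ i) * t i = t (τ j) * t j`, `t i * s 0 * t i = s 0 * t i * s 0`,
`t i * s k = s k * t i` (`k ≠ 0`), `s k * s (k + 1) * s k = s (k + 1) * s k * s (k + 1)`,
`s k * s l = s l * s k` (`k + 1 < l`). -/
inductive RelE (τ : Equiv.Perm I) : FreeGroup (I ⊕ Fin m) → Prop
  | tt (i j : I) : RelE τ (fT m (τ i) * fT m i * (fT m (τ j) * fT m j)⁻¹)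
  | ts (i : I) (k : Fin m) (h : (k : ℕ) = 0) :
      RelE τ (fT m i * fS I k * fT m i * (fS I k * fT m i * fS I k)⁻¹)
  | tc (i : I) (k : Fin m) (h : (k : ℕ) ≠ 0) : RelE τ (fT m i * fS I k * (fS I k * fT m i)⁻¹)
  | ss (k l : Fin m) (h : (k : ℕ) + 1 = l) :
      RelE τ (fS I k * fS I l * fS I k * (fS I l * fS I k * fS I l)⁻¹)
  | sc (k l : Fin m) (h : (k : ℕ) + 1 < l) : RelE τ (fS I k * fS I l * (fS I l * fS I k)⁻¹)

end

/-- The group with generators `t i` (`i : I`), `s k` (`k < m`) and the relators `RelE`.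
For `I = ZMod e`, `τ i = i + 1` this is the braid group `B(e,e,m+2)` of the complex reflection
group `G(e,e,m+2)` (Corran and Picantin). -/
abbrev CB {I : Type} (τ : Equiv.Perm I) (m : ℕ) : Type :=
  PresentedGroup {r : FreeGroup (I ⊕ Fin m) | RelE τ r}

section

variable {I : Type} {m : ℕ} {τ : Equiv.Perm I}

/-- The generator `t i`. -/
def gT (τ : Equiv.Perm I) (m : ℕ) (i : I) : CB τ m := PresentedGroup.of (Sum.inl i)

/-- The generator `s k`. -/
def gS (τ : Equiv.Perm I) (k : Fin m) : CB τ m := PresentedGroup.of (Sum.inr k)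

theorem rel_eq {a b : FreeGroup (I ⊕ Fin m)} (h : RelE τ (a * b⁻¹)) :
    PresentedGroup.mk {r : FreeGroup (I ⊕ Fin m) | RelE τ r} a =
      PresentedGroup.mk {r : FreeGroup (I ⊕ Fin m) | RelE τ r} b := by
  have h1 : (PresentedGroup.mk {r : FreeGroup (I ⊕ Fin m) | RelE τ r}) (a * b⁻¹) = 1 :=
    PresentedGroup.one_of_mem h
  rwa [map_mul, map_inv, mul_inv_eq_one] at h1

theorem rel_tt (i j : I) : gT τ m (τ i) * gT τ m i = gT τ m (τ j) * gT τ m j :=
  rel_eq (RelE.tt i j)

theorem rel_ts (i : I) (k : Fin m) (h : (k : ℕ) = 0) :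
    gT τ m i * gS τ k * gT τ m i = gS τ k * gT τ m i * gS τ k :=
  rel_eq (RelE.ts i k h)

theorem rel_tc (i : I) (k : Fin m) (h : (k : ℕ) ≠ 0) :
    gT τ m i * gS τ k = gS τ k * gT τ m i :=
  rel_eq (RelE.tc i k h)

theorem rel_ss (k l : Fin m) (h : (k : ℕ) + 1 = l) :
    gS τ k * gS τ l * gS τ k = gS τ l * gS τ k * gS τ l :=
  rel_eq (RelE.ss k l h)

theorem rel_sc (k l : Fin m) (h : (k : ℕ) + 1 < l) : gS τ k * gS τ l = gS τ l * gS τ k :=
  rel_eq (RelE.sc k l h)

/-- Homomorphisms from the group. -/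
theorem exists_lift {H : Type*} [Group H] (u : I → H) (v : Fin m → H)
    (h1 : ∀ i j, u (τ i) * u i = u (τ j) * u j)
    (h2 : ∀ i (k : Fin m), (k : ℕ) = 0 → u i * v k * u i = v k * u i * v k)
    (h3 : ∀ i (k : Fin m), (k : ℕ) ≠ 0 → u i * v k = v k * u i)
    (h4 : ∀ k l : Fin m, (k : ℕ) + 1 = l → v k * v l * v k = v l * v k * v l)
    (h5 : ∀ k l : Fin m, (k : ℕ) + 1 < l → v k * v l = v l * v k) :
    ∃ f : CB τ m →* H, (∀ i, f (gT τ m i) = u i) ∧ ∀ k, f (gS τ k) = v k := by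
  have hu : ∀ i, FreeGroup.lift (Sum.elim u v) (fT m i) = u i := fun i =>
    FreeGroup.lift_apply_of
  have hv : ∀ k, FreeGroup.lift (Sum.elim u v) (fS I k) = v k := fun k =>
    FreeGroup.lift_apply_of
  have hr : ∀ r ∈ {r : FreeGroup (I ⊕ Fin m) | RelE τ r}, FreeGroup.lift (Sum.elim u v) r = 1 := by
    intro r hr
    cases hr with
    | tt i j => simp only [map_mul, map_inv, hu, mul_inv_eq_one]; exact h1 i j
    | ts i k h => simp only [map_mul, map_inv, hu, hv, mul_inv_eq_one]; exact h2 i k h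
    | tc i k h => simp only [map_mul, map_inv, hu, hv, mul_inv_eq_one]; exact h3 i k h
    | ss k l h => simp only [map_mul, map_inv, hv, mul_inv_eq_one]; exact h4 k l h
    | sc k l h => simp only [map_mul, map_inv, hv, mul_inv_eq_one]; exact h5 k l h
  exact ⟨PresentedGroup.toGroup hr, fun i => PresentedGroup.toGroup.of hr,
    fun k => PresentedGroup.toGroup.of hr⟩

theorem closure_gens : Subgroup.closure (Set.range (gT τ m) ∪ Set.range (gS τ : Fin m → CB τ m)) =
    ⊤ := by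
  rw [eq_top_iff, ← PresentedGroup.closure_range_of]
  refine Subgroup.closure_mono ?_
  rintro _ ⟨x, rfl⟩
  rcases x with i | k
  · exact Or.inl ⟨i, rfl⟩
  · exact Or.inr ⟨k, rfl⟩

end

end Pool.Agent.CBG
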