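import Pool.Agent.Art.PcDef
import Pool.Agent.CBG.Def

/-!
# Groups of braid type

Artin groups whose finite sets of nodes without label infinity are disjoint unions of pieces, and
the Corran-Picantin groups `CB τ m` (for `I = ZMod e`, `τ i = i + 1`: the braid groups of the
complex reflection groups `G(e,e,m+2)`).
-/

set_option autoImplicit false

namespace Pool.Agent.CBG

open Pool.Agent.Art

/-- Groups of braid type: isomorphic to

* the Artin group of a Coxeter matrix `M` (the set of nodes is arbitrary) such that every finite
  set `T` of nodes without label infinity (in Mathlib: `0`) is a disjoint union of sets for which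
  the Coxeter group is finite or the restriction of `M` is of affine type `A~`, `B~` or `C~`, or

* the group `CB τ m` with the generators `t i` (`i : I`), `s 0, ..., s (m - 1)` and the relations
  `t (τ i) t i = t (τ j) t j`, `t i s 0 t i = s 0 t i s 0`, `t i s k = s k t i` (`k > 0`), and the
  braid relations of the `s k`, for a non-empty set `I` with a permutation `τ`. -/
inductive BraidType (A : Type) [Group A] : Prop
  | artin (B : Type) (M : CoxeterMatrix B)
      (hM : ∀ T : Set B, T.Finite → (∀ i ∈ T, ∀ j ∈ T, M i j ≠ 0) → Pieces T (rst M T))
      (h : Nonempty (A ≃* Artin M)) : BraidType A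
  | fork (I : Type) (hI : Nonempty I) (τ : Equiv.Perm I) (m : ℕ)
      (h : Nonempty (A ≃* CB τ m)) : BraidType A

end Pool.Agent.CBG
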