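import Pool.Agent.Art.SDB

/-!
# Conjugation formulas in the braid groups of the groups `G(e,e,r)`

`I` is a set with a permutation `τ` and a base point `o`, `t i` (`i : I`) and `s k` (`k < N`) are
elements of a group which satisfy the relations of Corran and Picantin, and
`cc i j = s (j - 1) ... s 0 (t i (t o)⁻¹) (s 0)⁻¹ ... (s (j - 1))⁻¹`.
-/

set_option autoImplicit false

namespace Pool.Agent.CBG

open Pool.Agent.Art

/-- The relations. -/
structure Rl {G : Type*} [Group G] {I : Type} (τ : Equiv.Perm I) (o : I) (N : ℕ) (t : I → G)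
    (s : ℕ → G) : Prop where
  h1 : ∀ i, t (τ i) * t i = t (τ o) * t o
  h2 : 0 < N → ∀ i, t i * s 0 * t i = s 0 * t i * s 0
  h3 : ∀ k, 0 < k → k < N → ∀ i, Commute (t i) (s k)
  h4 : ∀ k, k + 1 < N → s k * s (k + 1) * s k = s (k + 1) * s k * s (k + 1)
  h5 : ∀ j k, j + 1 < k → k < N → Commute (s j) (s k)

section

variable {G : Type*} [Group G] {I : Type}

/-- the conjugates -/
def cc (o : I) (t : I → G) (s : ℕ → G) (i : I) : ℕ → G
  | 0 => t i * (t o)⁻¹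
  | j + 1 => s j * cc o t s i j * (s j)⁻¹

variable {τ : Equiv.Perm I} {o : I} {N : ℕ} {t : I → G} {s : ℕ → G}

theorem cc_base (j : ℕ) : cc o t s o j = 1 := by
  induction j with
  | zero => exact mul_inv_cancel _
  | succ j ih => rw [cc, ih, mul_one, mul_inv_cancel]

theorem cc_lt (h : Rl τ o N t s) (i : I) : ∀ j k, j < k → k < N → Commute (cc o t s i j) (s k) := by
  intro j
  induction j with
  | zero =>
    intro k hj hk
    exact (h.h3 k hj hk i).mul_left (h.h3 k hj hk o).inv_left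
  | succ j ih =>
    intro k hj hk
    have h1 := h.h5 j k hj hk
    exact (h1.mul_left (ih k (by omega) hk)).mul_left h1.inv_left

/-- the relation of `s k`, `cc i k`, `cc (τ i) k`, `cc (τ o) k` -/
def RE (b x y z : G) : Prop :=
  b * (b * x * b⁻¹) * b⁻¹ = (b * x * b⁻¹) * (b * y * b⁻¹)⁻¹ * y * z⁻¹ * (b * z * b⁻¹)

theorem RE_conj {b x y z : G} (g : G) (h : RE b x y z) :
    RE (g * b * g⁻¹) (g * x * g⁻¹) (g * y * g⁻¹) (g * z * g⁻¹) := by
  unfold RE at h ⊢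
  calc _ = g * (b * (b * x * b⁻¹) * b⁻¹) * g⁻¹ := by group
    _ = g * ((b * x * b⁻¹) * (b * y * b⁻¹)⁻¹ * y * z⁻¹ * (b * z * b⁻¹)) * g⁻¹ := by rw [h]
    _ = _ := by group

theorem RE_base {b a x y z : G} (ha : a * b * a = b * a * b) (hx : x * b * x = b * x * b)
    (hy : y * b * y = b * y * b) (hz : z * b * z = b * z * b) (h1 : y * x = z * a) :
    RE b (x * a⁻¹) (y * a⁻¹) (z * a⁻¹) := by
  unfold RE
  have e1 : y⁻¹ * b⁻¹ * y = b * y⁻¹ * b⁻¹ := by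
    calc y⁻¹ * b⁻¹ * y = y⁻¹ * b⁻¹ * (y * b * y) * y⁻¹ * b⁻¹ := by group
      _ = y⁻¹ * b⁻¹ * (b * y * b) * y⁻¹ * b⁻¹ := by rw [hy]
      _ = b * y⁻¹ * b⁻¹ := by group
  have e2 : z⁻¹ * b * z = b * z * b⁻¹ := by
    calc z⁻¹ * b * z = z⁻¹ * (b * z * b) * b⁻¹ := by group
      _ = z⁻¹ * (z * b * z) * b⁻¹ := by rw [hz]
      _ = b * z * b⁻¹ := by group
  have e3 : y⁻¹ * z = x * a⁻¹ := by
    calc y⁻¹ * z = y⁻¹ * (z * a) * a⁻¹ := by group
      _ = y⁻¹ * (y * x) * a⁻¹ := by rw [h1]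
      _ = x * a⁻¹ := by group
  have e4 : a⁻¹ * b⁻¹ * a⁻¹ = b⁻¹ * a⁻¹ * b⁻¹ := by
    calc a⁻¹ * b⁻¹ * a⁻¹ = (a * b * a)⁻¹ := by group
      _ = (b * a * b)⁻¹ := by rw [ha]
      _ = b⁻¹ * a⁻¹ * b⁻¹ := by group
  symm
  calc b * (x * a⁻¹) * b⁻¹ * (b * (y * a⁻¹) * b⁻¹)⁻¹ * (y * a⁻¹) * (z * a⁻¹)⁻¹ *
        (b * (z * a⁻¹) * b⁻¹)
      = b * x * (y⁻¹ * b⁻¹ * y) * (z⁻¹ * b * z) * a⁻¹ * b⁻¹ := by group
    _ = b * x * (b * y⁻¹ * b⁻¹) * (b * z * b⁻¹) * a⁻¹ * b⁻¹ := by rw [e1, e2]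
    _ = b * x * b * (y⁻¹ * z) * b⁻¹ * a⁻¹ * b⁻¹ := by group
    _ = b * x * b * (x * a⁻¹) * b⁻¹ * a⁻¹ * b⁻¹ := by rw [e3]
    _ = b * (x * b * x) * (a⁻¹ * b⁻¹ * a⁻¹) * b⁻¹ := by group
    _ = b * (b * x * b) * (b⁻¹ * a⁻¹ * b⁻¹) * b⁻¹ := by rw [hx, e4]
    _ = b * (b * (x * a⁻¹) * b⁻¹) * b⁻¹ := by group

theorem cc_RE (h : Rl τ o N t s) (i : I) (k : ℕ) (hk : k < N) :
    RE (s k) (cc o t s i k) (cc o t s (τ i) k) (cc o t s (τ o) k) := by
  induction k with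
  | zero => exact RE_base (h.h2 hk o) (h.h2 hk i) (h.h2 hk _) (h.h2 hk _) (h.h1 i)
  | succ k ih =>
    have h1 := conj_braid (h.h4 k hk)
    have h2 : ∀ i, _ := fun i => conj_comm (a := s k) (cc_lt h i k (k + 1) (Nat.lt_succ_self k) hk)
    have h3 := RE_conj (s k * s (k + 1)) (ih (by omega))
    rw [h1, h2, h2, h2] at h3
    exact h3

theorem cc_succ (h : Rl τ o N t s) (i : I) (k : ℕ) (hk : k < N) :
    s k * cc o t s i (k + 1) * (s k)⁻¹ = cc o t s i (k + 1) * (cc o t s (τ i) (k + 1))⁻¹ *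
      cc o t s (τ i) k * (cc o t s (τ o) k)⁻¹ * cc o t s (τ o) (k + 1) :=
  cc_RE h i k hk

theorem cc_gt (h : Rl τ o N t s) (i : I) (k : ℕ) :
    ∀ j, k + 1 < j → j ≤ N → Commute (cc o t s i j) (s k) := by
  intro j hj hN
  induction j with
  | zero => omega
  | succ j ih =>
    rcases Nat.lt_or_ge (k + 1) j with h' | h'
    · have h1 := (h.h5 k j (by omega) (by omega)).symm
      exact (h1.mul_left (ih h' (by omega))).mul_left h1.inv_left
    · obtain rfl : j = k + 1 := by omega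
      exact comm_conj2 (h.h4 k (by omega)) (cc_lt h i k (k + 1) (Nat.lt_succ_self k) (by omega))

theorem cc_t0 (h : Rl τ o N t s) (i : I) :
    t o * cc o t s i 0 * (t o)⁻¹ = (cc o t s (τ i) 0)⁻¹ * cc o t s (τ o) 0 := by
  have e3 : (t (τ i))⁻¹ * t (τ o) = t i * (t o)⁻¹ := by
    calc (t (τ i))⁻¹ * t (τ o) = (t (τ i))⁻¹ * (t (τ o) * t o) * (t o)⁻¹ := by group
      _ = (t (τ i))⁻¹ * (t (τ i) * t i) * (t o)⁻¹ := by rw [h.h1 i]
      _ = _ := by group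
  change t o * (t i * (t o)⁻¹) * (t o)⁻¹ = (t (τ i) * (t o)⁻¹)⁻¹ * (t (τ o) * (t o)⁻¹)
  rw [← e3]
  group

theorem cc_tj (h : Rl τ o N t s) (i : I) (k : ℕ) (hk : k < N) :
    t o * cc o t s i (k + 1) * (t o)⁻¹ = (cc o t s i 0)⁻¹ * cc o t s i (k + 1) := by
  induction k with
  | zero =>
    have e1 : (t o)⁻¹ * (s 0)⁻¹ * (t o)⁻¹ = (s 0)⁻¹ * (t o)⁻¹ * (s 0)⁻¹ := by
      calc (t o)⁻¹ * (s 0)⁻¹ * (t o)⁻¹ = (t o * s 0 * t o)⁻¹ := by group
        _ = (s 0 * t o * s 0)⁻¹ := by rw [h.h2 hk]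
        _ = _ := by group
    have e2 : s 0 * t i * (s 0)⁻¹ = (t i)⁻¹ * s 0 * t i := by
      calc s 0 * t i * (s 0)⁻¹ = (t i)⁻¹ * (t i * s 0 * t i) * (s 0)⁻¹ := by group
        _ = (t i)⁻¹ * (s 0 * t i * s 0) * (s 0)⁻¹ := by rw [h.h2 hk]
        _ = _ := by group
    change t o * (s 0 * (t i * (t o)⁻¹) * (s 0)⁻¹) * (t o)⁻¹ =
      (t i * (t o)⁻¹)⁻¹ * (s 0 * (t i * (t o)⁻¹) * (s 0)⁻¹)
    calc t o * (s 0 * (t i * (t o)⁻¹) * (s 0)⁻¹) * (t o)⁻¹
        = t o * s 0 * t i * ((t o)⁻¹ * (s 0)⁻¹ * (t o)⁻¹) := by group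
      _ = t o * s 0 * t i * ((s 0)⁻¹ * (t o)⁻¹ * (s 0)⁻¹) := by rw [e1]
      _ = t o * (s 0 * t i * (s 0)⁻¹) * (t o)⁻¹ * (s 0)⁻¹ := by group
      _ = t o * ((t i)⁻¹ * s 0 * t i) * (t o)⁻¹ * (s 0)⁻¹ := by rw [e2]
      _ = _ := by group
  | succ k ih =>
    have h0 : Commute (t o) (s (k + 1)) := h.h3 (k + 1) (by omega) hk o
    have h1 : Commute (cc o t s i 0) (s (k + 1)) := cc_lt h i 0 (k + 1) (by omega) hk
    have h2 : cc o t s i (k + 1 + 1) = s (k + 1) * cc o t s i (k + 1) * (s (k + 1))⁻¹ := rfl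
    obtain ⟨u, hu⟩ : ∃ u, u = s (k + 1) := ⟨_, rfl⟩
    rw [h2, ← hu]
    rw [← hu] at h0 h1
    have h0' : u⁻¹ * (t o)⁻¹ = (t o)⁻¹ * u⁻¹ := h0.symm.inv_inv.eq
    have h1' : u * (cc o t s i 0)⁻¹ = (cc o t s i 0)⁻¹ * u := h1.symm.inv_right.eq
    calc t o * (u * cc o t s i (k + 1) * u⁻¹) * (t o)⁻¹
        = (t o * u) * cc o t s i (k + 1) * (u⁻¹ * (t o)⁻¹) := by group
      _ = (u * t o) * cc o t s i (k + 1) * ((t o)⁻¹ * u⁻¹) := by rw [h0.eq, h0']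
      _ = u * (t o * cc o t s i (k + 1) * (t o)⁻¹) * u⁻¹ := by group
      _ = u * ((cc o t s i 0)⁻¹ * cc o t s i (k + 1)) * u⁻¹ := by rw [ih (by omega)]
      _ = (u * (cc o t s i 0)⁻¹) * cc o t s i (k + 1) * u⁻¹ := by group
      _ = ((cc o t s i 0)⁻¹ * u) * cc o t s i (k + 1) * u⁻¹ := by rw [h1']
      _ = _ := by group

/-- The subgroup generated by the conjugates. -/
def K0 (o : I) (N : ℕ) (t : I → G) (s : ℕ → G) : Subgroup G :=
  Subgroup.closure {x | ∃ i, ∃ j ≤ N, x = cc o t s i j}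

theorem cc_mem (i : I) (j : ℕ) (hj : j ≤ N) : cc o t s i j ∈ K0 o N t s :=
  Subgroup.subset_closure ⟨i, j, hj, rfl⟩

/-- A criterion for elements of the normalizer. -/
theorem mem_norm {g : G} (h1 : ∀ i, ∀ j ≤ N, g * cc o t s i j * g⁻¹ ∈ K0 o N t s)
    (h2 : ∀ i, ∀ j ≤ N, g⁻¹ * cc o t s i j * g ∈ K0 o N t s) :
    g ∈ Subgroup.normalizer (K0 o N t s : Set G) := by
  have e1 : K0 o N t s ≤ (K0 o N t s).comap (MulAut.conj g).toMonoidHom := by
    refine (Subgroup.closure_le _).2 ?_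
    rintro _ ⟨i, j, hj, rfl⟩
    exact h1 i j hj
  have e2 : K0 o N t s ≤ (K0 o N t s).comap (MulAut.conj g⁻¹).toMonoidHom := by
    refine (Subgroup.closure_le _).2 ?_
    rintro _ ⟨i, j, hj, rfl⟩
    have := h2 i j hj
    change g⁻¹ * cc o t s i j * (g⁻¹)⁻¹ ∈ K0 o N t s
    rwa [inv_inv]
  rw [Subgroup.mem_normalizer_iff]
  intro x
  refine ⟨fun hx => e1 hx, fun hx => ?_⟩
  have h3 : g⁻¹ * (g * x * g⁻¹) * (g⁻¹)⁻¹ ∈ K0 o N t s := e2 hx
  have h4 : g⁻¹ * (g * x * g⁻¹) * (g⁻¹)⁻¹ = x := by group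
  rwa [h4] at h3

end

section

variable {G : Type*} [Group G] {I : Type}
variable {τ : Equiv.Perm I} {o : I} {N : ℕ} {t : I → G} {s : ℕ → G}

theorem s_norm (h : Rl τ o N t s) (k : ℕ) (hk : k < N) :
    s k ∈ Subgroup.normalizer (K0 o N t s : Set G) := by
  have hself : ∀ i, (s k)⁻¹ * cc o t s i k * s k ∈ K0 o N t s := by
    have h1 : ∀ i, ((s k)⁻¹ * cc o t s (τ i) k * s k) * ((s k)⁻¹ * cc o t s (τ o) k * s k)⁻¹ ∈
        K0 o N t s := by
      intro i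
      have h2 := cc_succ h i k hk
      have h3 : ((s k)⁻¹ * cc o t s (τ i) k * s k) * ((s k)⁻¹ * cc o t s (τ o) k * s k)⁻¹ =
          cc o t s (τ i) k * (cc o t s i k)⁻¹ * cc o t s i (k + 1) * (cc o t s (τ o) k)⁻¹ := by
        have h4 : cc o t s (τ i) k * (cc o t s (τ o) k)⁻¹ =
            cc o t s (τ i) (k + 1) * (cc o t s i (k + 1))⁻¹ *
              (s k * cc o t s i (k + 1) * (s k)⁻¹) * (cc o t s (τ o) (k + 1))⁻¹ := by
          rw [h2]; group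
        calc ((s k)⁻¹ * cc o t s (τ i) k * s k) * ((s k)⁻¹ * cc o t s (τ o) k * s k)⁻¹
            = (s k)⁻¹ * (cc o t s (τ i) k * (cc o t s (τ o) k)⁻¹) * s k := by group
          _ = (s k)⁻¹ * (cc o t s (τ i) (k + 1) * (cc o t s i (k + 1))⁻¹ *
              (s k * cc o t s i (k + 1) * (s k)⁻¹) * (cc o t s (τ o) (k + 1))⁻¹) * s k := by
                rw [h4]
          _ = _ := by
            simp only [cc]
            group
      rw [h3]
      exact mul_mem (mul_mem (mul_mem (cc_mem _ k hk.le) (inv_mem (cc_mem _ k hk.le)))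
        (cc_mem _ (k + 1) hk)) (inv_mem (cc_mem _ k hk.le))
    have h5 : ((s k)⁻¹ * cc o t s (τ o) k * s k) ∈ K0 o N t s := by
      have h6 := h1 (τ.symm o)
      rw [τ.apply_symm_apply, cc_base] at h6
      have h7 := inv_mem h6
      have h8 : ((s k)⁻¹ * 1 * s k * ((s k)⁻¹ * cc o t s (τ o) k * s k)⁻¹)⁻¹ =
          (s k)⁻¹ * cc o t s (τ o) k * s k := by group
      rwa [h8] at h7
    intro i
    have h9 := mul_mem (h1 (τ.symm i)) h5
    rw [τ.apply_symm_apply, inv_mul_cancel_right] at h9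
    exact h9
  have hcomm : ∀ i j, j ≤ N → j ≠ k → j ≠ k + 1 → Commute (cc o t s i j) (s k) := by
    intro i j hj h1 h2
    rcases Nat.lt_or_ge j k with h3 | h3
    · exact cc_lt h i j k h3 hk
    · exact cc_gt h i k j (by omega) hj
  refine mem_norm (fun i j hj => ?_) fun i j hj => ?_
  · by_cases h1 : j = k
    · subst h1
      exact cc_mem i (j + 1) hk
    by_cases h2 : j = k + 1
    · subst h2
      rw [cc_succ h i k hk]
      exact mul_mem (mul_mem (mul_mem (mul_mem (cc_mem _ _ hj) (inv_mem (cc_mem _ _ hj)))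
        (cc_mem _ k hk.le)) (inv_mem (cc_mem _ k hk.le))) (cc_mem _ _ hj)
    · rw [← (hcomm i j hj h1 h2).eq, mul_inv_cancel_right]
      exact cc_mem i j hj
  · by_cases h1 : j = k
    · subst h1
      exact hself i
    by_cases h2 : j = k + 1
    · subst h2
      have h3 : (s k)⁻¹ * cc o t s i (k + 1) * s k = cc o t s i k := by
        simp only [cc]; group
      rw [h3]
      exact cc_mem i k hk.le
    · rw [mul_assoc, (hcomm i j hj h1 h2).eq, inv_mul_cancel_left]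
      exact cc_mem i j hj

theorem t_norm (h : Rl τ o N t s) : t o ∈ Subgroup.normalizer (K0 o N t s : Set G) := by
  have hz : ∀ i, (t o)⁻¹ * cc o t s i 0 * t o ∈ K0 o N t s := by
    have h1 : ∀ i, ((t o)⁻¹ * cc o t s (τ i) 0 * t o)⁻¹ * ((t o)⁻¹ * cc o t s (τ o) 0 * t o) ∈
        K0 o N t s := by
      intro i
      have h3 : ((t o)⁻¹ * cc o t s (τ i) 0 * t o)⁻¹ * ((t o)⁻¹ * cc o t s (τ o) 0 * t o) =
          cc o t s i 0 := by
        calc ((t o)⁻¹ * cc o t s (τ i) 0 * t o)⁻¹ * ((t o)⁻¹ * cc o t s (τ o) 0 * t o)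
            = (t o)⁻¹ * ((cc o t s (τ i) 0)⁻¹ * cc o t s (τ o) 0) * t o := by group
          _ = (t o)⁻¹ * (t o * cc o t s i 0 * (t o)⁻¹) * t o := by rw [cc_t0 h]
          _ = _ := by group
      rw [h3]
      exact cc_mem i 0 (Nat.zero_le _)
    have h5 : ((t o)⁻¹ * cc o t s (τ o) 0 * t o) ∈ K0 o N t s := by
      have h6 := h1 (τ.symm o)
      rw [τ.apply_symm_apply, cc_base] at h6
      have h8 : ((t o)⁻¹ * 1 * t o)⁻¹ * ((t o)⁻¹ * cc o t s (τ o) 0 * t o) =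
          (t o)⁻¹ * cc o t s (τ o) 0 * t o := by group
      rwa [h8] at h6
    intro i
    have h9 := mul_mem h5 (inv_mem (h1 (τ.symm i)))
    rw [τ.apply_symm_apply, mul_inv_rev, inv_inv, mul_inv_cancel_left] at h9
    exact h9
  refine mem_norm (fun i j hj => ?_) fun i j hj => ?_
  · rcases j with _ | j
    · rw [cc_t0 h]
      exact mul_mem (inv_mem (cc_mem _ _ hj)) (cc_mem _ _ hj)
    · rw [cc_tj h i j hj]
      exact mul_mem (inv_mem (cc_mem _ _ (Nat.zero_le _))) (cc_mem _ _ hj)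
  · rcases j with _ | j
    · exact hz i
    · have h3 : (t o)⁻¹ * cc o t s i (j + 1) * t o =
          ((t o)⁻¹ * cc o t s i 0 * t o) * cc o t s i (j + 1) := by
        calc (t o)⁻¹ * cc o t s i (j + 1) * t o
            = (t o)⁻¹ * (cc o t s i 0 * ((cc o t s i 0)⁻¹ * cc o t s i (j + 1))) * t o := by group
          _ = (t o)⁻¹ * (cc o t s i 0 * (t o * cc o t s i (j + 1) * (t o)⁻¹)) * t o := by
              rw [cc_tj h i j hj]
          _ = _ := by group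
      rw [h3]
      exact mul_mem (hz i) (cc_mem _ _ hj)

end

end Pool.Agent.CBG
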