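import Pool.Agent.CBG.Act
import Pool.Agent.CBG.Conj
import Pool.Agent.CBG.Def

/-!
# The braid groups of the groups `G(e,e,r)` are in the class `HierL`
-/

set_option autoImplicit false

namespace Pool.Agent.CBG

open Pool.Agent.Art Pool.Agent.HL

section

variable {I : Type} (τ : Equiv.Perm I)

open FreeGroup SemidirectProduct

/-- the image of `t i` -/
noncomputable def pT (i : I) : FreeGroup (I × ℕ) ⋊[phiE τ] Artin mA :=
  inl ((of (i, 0))⁻¹ * of (i, 1)) * inr (gen mA 0)

/-- the image of `s k` -/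
noncomputable def pS (k : ℕ) : FreeGroup (I × ℕ) ⋊[phiE τ] Artin mA := inr (gen mA (k + 1))

theorem pT_mul (i : I) : pT τ (τ i) * pT τ i = inr (gen mA 0 * gen mA 0) := by
  have e1 : phiE τ (gen mA 0) (of (i, 0)) = of (i, 1) := by rw [phiE_gen]; exact eA_self τ i 0
  have e2 : phiE τ (gen mA 0) (of (i, 1)) = of (i, 1) * (of (τ i, 1))⁻¹ * of (τ i, 0) := by
    rw [phiE_gen]; exact eA_succ τ i 0
  apply SemidirectProduct.ext
  · simp [pT, e1, e2, mul_assoc]
  · simp [pT]

theorem pT_braid (i : I) : pT τ i * pS τ 0 * pT τ i = pS τ 0 * pT τ i * pS τ 0 := by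
  have e1 : phiE τ (gen mA 0) (of (i, 0)) = of (i, 1) := by rw [phiE_gen]; exact eA_self τ i 0
  have e3 : phiE τ (gen mA 1) (of (i, 0)) = of (i, 0) := by
    rw [phiE_gen]; exact eA_ne τ i (by omega) (by omega)
  have e4 : phiE τ (gen mA 1) (of (i, 1)) = of (i, 2) := by
    rw [phiE_gen]; exact eA_self τ i 1
  have e5 : phiE τ (gen mA 0) (of (i, 2)) = of (i, 2) := by
    rw [phiE_gen]; exact eA_ne τ i (by omega) (by omega)
  apply SemidirectProduct.ext
  · simp [pT, pS, e1, e3, e4, e5, mul_assoc]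
  · have h := gen_mA_braid 0
    simpa [pT, pS] using h

theorem pT_comm (i : I) (k : ℕ) (hk : k ≠ 0) : pT τ i * pS τ k = pS τ k * pT τ i := by
  have e1 : phiE τ (gen mA (k + 1)) (of (i, 0)) = of (i, 0) := by
    rw [phiE_gen]; exact eA_ne τ i (by omega) (by omega)
  have e2 : phiE τ (gen mA (k + 1)) (of (i, 1)) = of (i, 1) := by
    rw [phiE_gen]; exact eA_ne τ i (by omega) (by omega)
  apply SemidirectProduct.ext
  · simp [pT, pS, e1, e2]
  · have h : gen mA 0 * gen mA (k + 1) = gen mA (k + 1) * gen mA 0 := gen_mA_comm (by omega)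
    simpa [pT, pS] using h

theorem exists_phi (m : ℕ) : ∃ f : CB τ m →* FreeGroup (I × ℕ) ⋊[phiE τ] Artin mA,
    (∀ i, f (gT τ m i) = pT τ i) ∧ ∀ k, f (gS τ k) = pS τ k := by
  refine exists_lift (pT τ) (fun k => pS τ k) (fun i j => ?_) (fun i k hk => ?_)
    (fun i k hk => ?_) (fun k l h => ?_) fun k l h => ?_
  · rw [pT_mul, pT_mul]
  · rw [hk]; exact pT_braid τ i
  · exact pT_comm τ i k hk
  · change inr _ * inr _ * inr _ = inr _ * inr _ * inr _
    rw [← h, ← _root_.map_mul, ← _root_.map_mul, ← _root_.map_mul, ← _root_.map_mul, gen_mA_braid]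
  · change inr _ * inr _ = inr _ * inr _
    rw [← _root_.map_mul, ← _root_.map_mul, gen_mA_comm (by omega)]

end

section

variable {I : Type} (τ : Equiv.Perm I) (m : ℕ)

/-- the generators `s k`, extended by `1` -/
noncomputable def sN (k : ℕ) : CB τ m := if h : k < m then gS τ ⟨k, h⟩ else 1

theorem sN_of {k : ℕ} (h : k < m) : sN τ m k = gS τ ⟨k, h⟩ := dif_pos h

theorem rl (o : I) : Rl τ o m (gT τ m) (sN τ m) where
  h1 i := rel_tt i o
  h2 h i := by
    rw [sN_of τ m h]
    exact rel_ts i _ rfl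
  h3 k h h' i := by
    rw [sN_of τ m h']
    exact rel_tc i _ (by simp; omega)
  h4 k h := by
    rw [sN_of τ m h, sN_of τ m (k := k) (by omega)]
    exact rel_ss _ _ rfl
  h5 j k h h' := by
    rw [sN_of τ m h', sN_of τ m (k := j) (by omega)]
    exact rel_sc _ _ h

theorem K0_normal (o : I) : (K0 o m (gT τ m) (sN τ m)).Normal := by
  rw [← Subgroup.normalizer_eq_top_iff, eq_top_iff, ← closure_gens]
  refine (Subgroup.closure_le _).2 ?_
  have ht := t_norm (rl τ m o)
  rintro x (⟨i, rfl⟩ | ⟨k, rfl⟩)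
  · have h1 : gT τ m i = (gT τ m i * (gT τ m o)⁻¹) * gT τ m o := by group
    rw [h1]
    exact mul_mem (Subgroup.le_normalizer (cc_mem i 0 (Nat.zero_le _))) ht
  · have h1 := s_norm (rl τ m o) k k.2
    rwa [sN_of τ m k.2] at h1

/-- the section -/
theorem exists_sec (o : I) : ∃ f : Artin (tA (m + 1)) →* CB τ m,
    f (gen _ 0) = gT τ m o ∧ ∀ k : Fin m, f (gen _ k.succ) = gS τ k := by
  let u : Fin (m + 1) → CB τ m := Fin.cases (gT τ m o) (fun k => gS τ k)
  have hb : ∀ i j : Fin (m + 1), (i : ℕ) + 1 = j → u i * u j * u i = u j * u i * u j := by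
    intro i j h
    rcases Fin.eq_zero_or_eq_succ j with rfl | ⟨j, rfl⟩
    · simp at h
    rcases Fin.eq_zero_or_eq_succ i with rfl | ⟨i, rfl⟩
    · exact rel_ts o j (by simpa using h.symm)
    · exact rel_ss i j (by simpa using h)
  have hc : ∀ i j : Fin (m + 1), (i : ℕ) + 1 < j → u i * u j = u j * u i := by
    intro i j h
    rcases Fin.eq_zero_or_eq_succ j with rfl | ⟨j, rfl⟩
    · simp at h
    rcases Fin.eq_zero_or_eq_succ i with rfl | ⟨i, rfl⟩
    · exact rel_tc o j (by simp at h; omega)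
    · exact rel_sc i j (by simpa using h)
  refine ⟨lift u ?_, lift_gen _ _ _, fun k => lift_gen _ _ _⟩
  intro i j _
  change alt (u i) (u j) (if i = j then 1 else if (i : ℕ) + 1 = j ∨ (j : ℕ) + 1 = i then 3 else 2) =
    alt (u j) (u i) (if i = j then 1 else if (i : ℕ) + 1 = j ∨ (j : ℕ) + 1 = i then 3 else 2)
  split_ifs with h1 h2
  · rw [h1]
  · rw [alt_three, alt_three]
    rcases h2 with h2 | h2
    · exact hb i j h2
    · exact (hb j i h2).symm
  · rw [alt_two, alt_two]
    have h3 : (i : ℕ) ≠ j := fun h => h1 (Fin.ext h)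
    rcases Nat.lt_or_ge ((i : ℕ) + 1) j with h | h
    · exact hc i j h
    · exact (hc j i (by omega)).symm

theorem decomp (o : I) (σ : Artin (tA (m + 1)) →* CB τ m) (h0 : σ (gen _ 0) = gT τ m o)
    (h1 : ∀ k : Fin m, σ (gen _ k.succ) = gS τ k) (x : CB τ m) :
    ∃ y ∈ K0 o m (gT τ m) (sN τ m), ∃ b, x = y * σ b := by
  have hn := K0_normal τ m o
  have h2 : K0 o m (gT τ m) (sN τ m) ⊔ σ.range = ⊤ := by
    rw [eq_top_iff, ← closure_gens]
    refine (Subgroup.closure_le _).2 ?_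
    rintro x (⟨i, rfl⟩ | ⟨k, rfl⟩)
    · have h3 : gT τ m i = (gT τ m i * (gT τ m o)⁻¹) * gT τ m o := by group
      rw [h3]
      refine Subgroup.mul_mem_sup (cc_mem i 0 (Nat.zero_le _)) ?_
      rw [← h0]
      exact ⟨_, rfl⟩
    · have h3 : gS τ k ∈ σ.range := ⟨_, h1 k⟩
      exact (le_sup_right : σ.range ≤ _) h3
  have h3 : x ∈ K0 o m (gT τ m) (sN τ m) ⊔ σ.range := by rw [h2]; trivial
  rw [Subgroup.mem_sup_of_normal_left] at h3
  obtain ⟨y, hy, z, ⟨b, rfl⟩, h⟩ := h3
  exact ⟨y, hy, b, h.symm⟩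

open SemidirectProduct in
/-- The group embeds: the kernel of the map to the braid group is free. -/
theorem exists_ret [Nonempty I] (f : CB τ m →* FreeGroup (I × ℕ) ⋊[phiE τ] Artin mA)
    (hT : ∀ i, f (gT τ m i) = pT τ i) (hS : ∀ k, f (gS τ k) = pS τ k) :
    ∃ ρ : FreeGroup (I × ℕ) →* CB τ m, ∀ x, (f x).right = 1 → ρ (f x).left = x := by
  obtain ⟨o⟩ := ‹Nonempty I›
  let w : I × ℕ → CB τ m := fun p =>
    if p.2 = 0 then 1 else cc o (gT τ m) (sN τ m) p.1 (p.2 - 1)
  let ρ : FreeGroup (I × ℕ) →* CB τ m := FreeGroup.lift w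
  have hρ0 : ∀ i, ρ (FreeGroup.of (i, 0)) = 1 := fun i => FreeGroup.lift_apply_of
  have hρ : ∀ i k, ρ (FreeGroup.of (i, k + 1)) = cc o (gT τ m) (sN τ m) i k :=
    fun i k => FreeGroup.lift_apply_of
  -- the image of the conjugates
  have hcc : ∀ i j, j ≤ m → f (cc o (gT τ m) (sN τ m) i j) =
      inl ((FreeGroup.of (i, 0))⁻¹ * FreeGroup.of (i, j + 1) * (FreeGroup.of (o, j + 1))⁻¹ *
        FreeGroup.of (o, 0)) := by
    intro i j
    induction j with
    | zero =>
      intro _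
      change f (gT τ m i * (gT τ m o)⁻¹) = _
      rw [map_mul, map_inv, hT, hT, pT, pT]
      simp only [map_mul, map_inv, mul_inv_rev]
      group
    | succ j ih =>
      intro hj
      change f (sN τ m j * cc o (gT τ m) (sN τ m) i j * (sN τ m j)⁻¹) = _
      rw [map_mul, map_mul, map_inv, ih (by omega), sN_of τ m (k := j) (by omega), hS]
      change inr (gen mA (j + 1)) * inl _ * (inr (gen mA (j + 1)))⁻¹ = _
      rw [← map_inv, ← inl_aut, phiE_gen]
      simp only [map_mul, map_inv]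
      rw [eA_self, eA_self, eA_ne τ i (by omega) (by omega), eA_ne τ o (by omega) (by omega)]
  -- the retraction on `K0`
  have hK : ∀ x ∈ K0 o m (gT τ m) (sN τ m), (f x).right = 1 ∧ ρ (f x).left = x := by
    intro x hx
    refine Subgroup.closure_induction ?_ ?_ ?_ ?_ hx
    · rintro _ ⟨i, j, hj, rfl⟩
      rw [hcc i j hj]
      refine ⟨right_inl _, ?_⟩
      rw [left_inl]
      simp only [map_mul, map_inv]
      rw [hρ0, hρ0, hρ, hρ, cc_base]
      group
    · refine ⟨by simp, by simp⟩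
    · rintro a b _ _ ⟨ha, ha'⟩ ⟨hb, hb'⟩
      rw [map_mul, mul_right, mul_left, ha, hb, map_one, MulAut.one_apply, map_mul, ha', hb']
      exact ⟨one_mul _, rfl⟩
    · rintro a _ ⟨ha, ha'⟩
      rw [map_inv, inv_right, inv_left, ha, inv_one, map_one, MulAut.one_apply, map_inv, ha']
      exact ⟨rfl, rfl⟩
  -- the section and the embedding of the braid group
  obtain ⟨σ, hσ0, hσ⟩ := exists_sec τ m o
  obtain ⟨ι, hι, hιi⟩ := exists_amap (tA (m + 1)) mA (fun i => i.1) Fin.val_injective (by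
    intro i j
    change (if i.1 = j.1 then 1 else _) = if i = j then 1 else _
    simp only [Fin.ext_iff])
  have hfσ : ∀ b, (f (σ b)).right = ι b := by
    have : (rightHom.comp (f.comp σ)) = ι := by
      refine hom_ext fun i => ?_
      rcases Fin.eq_zero_or_eq_succ i with rfl | ⟨i, rfl⟩
      · change (f (σ (gen _ 0))).right = _
        rw [hσ0, hT, hι, pT]
        simp
      · change (f (σ (gen _ i.succ))).right = _
        rw [hσ, hS, hι, pS]
        simp
    exact fun b => DFunLike.congr_fun this b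
  refine ⟨ρ, fun x hx => ?_⟩
  obtain ⟨y, hy, b, rfl⟩ := decomp τ m o σ hσ0 hσ x
  have h1 : (f (y * σ b)).right = ι b := by
    rw [map_mul, mul_right, (hK y hy).1, one_mul, hfσ]
  rw [h1] at hx
  have h2 : b = 1 := hιi (by rw [hx, map_one])
  rw [h2, map_one, mul_one]
  exact (hK y hy).2

open SemidirectProduct in
/-- The groups are in the class `HierL`. -/
theorem hierL_CB [Nonempty I] (hA : ∀ n, HierL (Artin (tA n))) : HierL (CB τ m) := by
  obtain ⟨f, hT, hS⟩ := exists_phi τ m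
  obtain ⟨ρ, hρ⟩ := exists_ret τ m f hT hS
  refine hierL_inj _ (hierL_sdprod (phiE τ) (hierL_mA hA)) _ f ?_
  rw [injective_iff_map_eq_one]
  intro x hx
  have h1 := hρ x (by rw [hx]; rfl)
  rw [← h1, hx]
  exact map_one ρ

end

end Pool.Agent.CBG
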