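import Pool.Agent.HL.Hier
import Pool.Agent.HI.H17
import Pool.Agent.Art.Pcs
import Pool.Agent.CBG.Main
import Pool.Agent.CBG.BrType

/-!
# The strong Atiyah conjecture for the groups of braid type
-/

set_option autoImplicit false

noncomputable section

namespace Pool.Agent.CBG

open Pool.Agent.VN Pool.Agent.Art Pool.Agent.HL

theorem hierL_tA (n : ℕ) : HierL (Artin (tA n)) :=
  hierL_artin_sph (Sph.irr (Fin n) (tA n) n (tA n) (Irr.A n) (Equiv.refl _) fun _ _ => rfl)

theorem BraidType.hierL {A : Type} [Group A] (h : BraidType A) : HierL A := by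
  cases h with
  | artin B M hM h =>
    obtain ⟨e⟩ := h
    exact hierL_inj _ (hierL_of_pcs M hM) A e.toMonoidHom e.injective
  | fork I hI τ m h =>
    obtain ⟨e⟩ := h
    exact hierL_inj _ (hierL_CB τ m hierL_tA) A e.toMonoidHom e.injective

theorem BraidType.atiyah {A : Type} [Group A] (hA : BraidType A) :
    AtiyahOver ⊤ A ∧ ∀ (k : Subring ℂ) (G : Type) [Group G] (f : G →* A),
      AtiyahOver k f.ker → AtiyahOver k G := by
  have h : ∀ (k : Subring ℂ) (G : Type) [Group G] (f : G →* A),
      AtiyahOver k f.ker → AtiyahOver k G := fun k G _ f hf =>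
    Pool.Agent.HL.atiyah_of_hierL k G A f hA.hierL hf
  refine ⟨?_, h⟩
  refine h ⊤ A (MonoidHom.id _) ?_
  have : Subsingleton (MonoidHom.id A).ker := by
    rw [MonoidHom.ker_id]
    infer_instance
  exact Pool.Agent.HI.H17_atiyah ⊤ _

/-- The braid groups of the complex reflection groups `G(e,e,m+2)`. -/
theorem braidType_Gee (e m : ℕ) : BraidType (CB (Equiv.addRight (1 : ZMod e)) m) :=
  BraidType.fork (ZMod e) ⟨0⟩ (Equiv.addRight 1) m ⟨MulEquiv.refl _⟩

end Pool.Agent.CBG
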